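import Pool.Agent.Helper61.QL.Main
import Pool.Agent.Helper61.QT.Final
import Pool.Agent.Helper23.QL.CVL
import Pool.Agent.Helper29.QL.DTL
import Pool.Agent.Helper30.QL.SRL
import Pool.Agent.Helper36.QL.SPLL
import Pool.Agent.Helper40.QL.PRD
import Pool.Agent.Helper73.QL.POL
import Pool.Agent.Helper80.QL.CDG
import Pool.Agent.Helper80.QL.CMG
import Pool.Agent.Helper80.QL.CRG
import Pool.Agent.Helper80.QL.EJG
import Pool.Agent.Helper80.QL.LPG
import Pool.Agent.Helper80.QL.STL
import Pool.Agent.Helper82.QL.HOG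
import Pool.Agent.Helper95.QL.LAM

/-!
# Project QL (MP_0ebdb3_gt): all goals together
-/

set_option autoImplicit false

namespace Pool.Agent.Helper61.QL

open Pool.Agent Pool.Agent.Helper61

theorem allCRG : G_CRG := Helper80.QL.goalCRG
  (Helper80.QL.goalCMG Helper80.QL.goalCDG Helper69.QS.goalCE QS.allCP QS.allCW QS.allCLB
    Helper24.QS.goalPER)
  (Helper34.QS.goalC0 QS.allCP QS.allCLB Helper24.QS.goalPER)

theorem allSTL : G_STL := Helper80.QL.goalSTL Helper95.QL.goalLAM
  (Helper30.QL.goalSRL Helper8.QS.goalPL Helper73.QL.goalPOL QT.allGBX) Helper5.QS.goalSR2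

theorem allPRD : G_PRD := Helper40.QL.goalPRD (Helper86.QS.goalSP Helper8.QS.goalPL QS.allBX)

theorem allHOG : G_HOG := Helper82.QL.goalHOG Helper89.QS.goalOD1 Helper59.QS.goalOD2 QS.allOD3
  QS.allOD4 Helper22.QT.goalOD5

theorem allOPL : G_OPL := opMainL QT.allGKC Helper73.QL.goalPOL allSTL allPRD
  (Helper29.QL.goalDTL Helper8.QS.goalPL Helper73.QL.goalPOL) allHOG Helper5.QS.goalISO
  Helper80.QL.goalLPG allCRG Helper80.QL.goalEJG Helper36.QL.goalSPLL QS.allFIN

theorem allML : QM.G_ML := mainL allOPL (Helper23.QL.goalCVL Helper22.QG.goalCVI)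
  Helper35.QG.goalCVX Helper87.QG.goalCVB Helper23.QG.goalCVT Helper35.QG.goalCVS

end Pool.Agent.Helper61.QL
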