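import Pool.Agent.Helper61.QT.GoalsG
import Pool.Agent.Helper61.QG.GoalsV

/-!
# Project QL (MP_0ebdb3_gt): soul metrics with a circle of isometries (twisted polar coordinates)

Extension of project QS.  `M_m = (S³ × S²)/S¹`, points of `R4` are `(r, θ, α, β)`, `σ(r,α) =
(cos r, e^{iα} sin r)`, `pol x = (σ(r,α), (e^{iβ} sin θ, cos θ))`.  The polar coordinates are twisted by a
function `Λ(r,α)`: `polL Λ x = pol (r, θ, α, β + Λ(r,α))`.  At the edge `r = π/2` the identification is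
now `(π/2, θ, α, β) ~ (π/2, θ, 0, β - G α)`, `G α = m α - Λ(π/2,α) + Λ(π/2,0)`, instead of
`β - m α`.  All objects with a counterpart in project QS have the same names with `m` replaced by `G`.
-/

set_option autoImplicit false

open Set ComplexConjugate NormedSpace

namespace Pool.Agent.Helper61.QL

open Pool.Agent.Helper61 Pool.Agent.Helper61.QG Pool.Agent.Helper61.QT
open Pool.Agent.Helper61.QS (V En tr rk W X TX act R4 UC IsIso compr IsTrans Box Compat BoxSplit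
  lN lS lΨ IsCurv Gam dd)
open Pool.Agent.Helper61.QM (Model Mm)

/-! ### The core theorem for the relation `Ψ (β - G α) hN α = hS α Ψ β` -/

/-- the twisting function -/
structure IsTw (m : ℤ) (G : ℝ → ℝ) : Prop where
  sm : ContDiff ℝ 1 G
  zero : G 0 = 0
  per : ∀ α, G (α + 2 * Real.pi) = G α + 2 * Real.pi * m

/-- the hypotheses of the core theorem -/
structure LoopsL (k : ℕ) (G : ℝ → ℝ) (hN hS Ψ : ℝ → En k) : Prop where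
  uN : ∀ α, hN α ∈ unitary (En k)
  uS : ∀ α, hS α ∈ unitary (En k)
  uΨ : ∀ β, Ψ β ∈ unitary (En k)
  smN : ContDiff ℝ 1 hN
  smS : ContDiff ℝ 1 hS
  smΨ : ContDiff ℝ 1 Ψ
  pN : ∀ α, hN (α + 2 * Real.pi) = hN α
  pS : ∀ α, hS (α + 2 * Real.pi) = hS α
  pΨ : ∀ β, Ψ (β + 2 * Real.pi) = Ψ β
  N0 : hN 0 = 1
  S0 : hS 0 = 1
  Ψ0 : Ψ 0 = 1
  rel : ∀ α β, Ψ (β - G α) * hN α = hS α * Ψ β

/-- **L-CDG** (`G` not constant: `Ψ` is a product of two one-parameter groups).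

Proof.  Let `α₀` with `g₀ = G'(α₀) ≠ 0`.  Differentiate the relation in `α` at `α₀`:
`-g₀ Ψ'(β - Gα₀) hN α₀ + Ψ(β - Gα₀) hN'(α₀) = hS'(α₀) Ψ β`.  Multiply by `(hN α₀)⋆` on the right and use
`Ψ β = (hS α₀)⋆ Ψ(β - Gα₀) hN α₀`: with `y = β - Gα₀` (arbitrary), `S = hS'(α₀) (hS α₀)⋆`,
`N = hN'(α₀) (hN α₀)⋆` (skew), `-g₀ Ψ' y = S Ψ y - Ψ y N`.  `XS = S/g₀`, `XN = N/g₀`:
`Ψ' = -XS Ψ + Ψ XN`, so `exp(yXS) Ψ(y) exp(-yXN)` is constant, `Ψ y = exp(-yXS) exp(yXN)`.  Then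
`Ψ(β - γ) = exp(γXS) Ψ β exp(-γXN)`, and with `γ = G α` the relation becomes
`exp(γXS) Ψ β (exp(-γXN) hN α) = hS α Ψ β`; `β = 0`: `exp(-γXN) hN α = exp(-γXS) hS α =: K`, and in
general `Ψ β K = K Ψ β`. -/
def G_CDG : Prop := ∀ (k : ℕ) (G : ℝ → ℝ) (hN hS Ψ : ℝ → En k), ContDiff ℝ 1 G →
  LoopsL k G hN hS Ψ → (∃ α₀, deriv G α₀ ≠ 0) →
  ∃ XN XS : En k, star XN = -XN ∧ star XS = -XS ∧
    (∀ β : ℝ, Ψ β = exp (-β • XS) * exp (β • XN)) ∧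
    (∀ α : ℝ, exp (-(G α) • XN) * hN α = exp (-(G α) • XS) * hS α) ∧
    ∀ α β : ℝ, Ψ β * (exp (-(G α) • XN) * hN α) = exp (-(G α) • XN) * hN α * Ψ β

/-- the conclusion of the core theorem -/
def CoreConclL (k : ℕ) (G : ℝ → ℝ) (hN hS Ψ : ℝ → En k) : Prop :=
  ∃ κ Φ : ℝ → ℝ → En k,
    ContinuousOn (fun z : ℝ × ℝ => κ z.1 z.2) (Icc (0 : ℝ) 1 ×ˢ univ) ∧
    ContinuousOn (fun z : ℝ × ℝ => Φ z.1 z.2) (Icc (0 : ℝ) 1 ×ˢ univ) ∧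
    (∀ s ∈ Icc (0 : ℝ) 1, ∀ x, κ s x ∈ unitary (En k) ∧ Φ s x ∈ unitary (En k) ∧
      κ s (x + 2 * Real.pi) = κ s x ∧ Φ s (x + 2 * Real.pi) = Φ s x) ∧
    (∀ α, κ 0 α = 1) ∧ (∀ s ∈ Icc (0 : ℝ) 1, κ s 0 = 1) ∧ (∀ β, Φ 0 β = Ψ β) ∧
    (∀ s ∈ Icc (0 : ℝ) 1, ∀ α β, Ψ β * κ s α = κ s α * Ψ β) ∧
    (∀ s ∈ Icc (0 : ℝ) 1, ∀ α β,
      Φ s (β - G α) * (hN α * κ 1 α) = (hS α * κ 1 α) * Φ s β) ∧
    ∃ (N : ℕ) (ϖ : Fin N → En k),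
      (∀ j, ϖ j * ϖ j = ϖ j ∧ star (ϖ j) = ϖ j ∧
        (∀ α, (hS α * κ 1 α) * ϖ j = ϖ j * (hS α * κ 1 α)) ∧
        ∀ β, star (Φ 1 β) * ϖ j * Φ 1 β = star (Φ 1 0) * ϖ j * Φ 1 0) ∧
      (∀ i j, i ≠ j → ϖ i * ϖ j = 0) ∧ ∑ j, ϖ j = 1 ∧
      ∀ j, tr (ϖ j) = 2 ∨ (tr (ϖ j) = 1 ∧ j.val = 0)

/-- **L-CMG** (the core theorem for non-constant `G`; uses `G_CDG`, `QS.G_CE`, `QS.G_CP`, `QS.G_CW`,
`QS.G_CLB`, `QS.G_PER`).  Port of `Pool/Agent/Helper23/QS/CM.lean`.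

Proof.  As for `QS.G_CM` with `αA, αB` replaced by `G(α)A, G(α)B` and `β/m` by `β`: `XN, XS` from
`G_CDG`, `Y0` from `QS.G_CE` with `m = 1`, `A = XN - Y0`, `B = XS - Y0` (they commute with every `c`
commuting with all `Ψ β`, in particular with `Y0`); `Ψ β = exp(-βB) exp(βA)`.
`K α = exp(-G(α)XN) hN α = exp(-G(α)XS) hS α`, `k' α = exp(G(α)Y0) K α`: an orthogonal operator
commuting with all `Ψ β`; `hN α = exp(G(α)A) k' α`, `hS α = exp(G(α)B) k' α`; `k' 0 = 1`.  `Ψ(2π) = 1`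
gives `exp(2πA) = exp(2πB) =: u`.  `QS.G_CP` for `p t = k'(2πt)` in `UC (range Ψ)`: `a`, homotopy `H`
from `p` to `q`, `q t` in the double commutant of `a`.  `κ s α = star (k' α₀) * H s (fract (α/2π))`,
`α₀ = 2π fract (α/2π)`.  For `α = α₀ + 2πn`: `hN α κ_1 α = exp(G(α₀)A) y α₀`,
`hS α κ_1 α = exp(G(α₀)B) y α₀`, `y α₀ = q (α₀/2π)`.  `QS.G_CW` for `S = {u, a}` and `A, B`:
`w t ∈ UC {u, a}`, `w 0 = 1`, `A' = w 1 * B * star (w 1)` commutes with `A`.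
`Φ s β = exp(-βB) * star (w s) * exp(βA)`: `Φ 0 = Ψ`, `2π`-periodic.  Relation for `α = α₀`:
`Φ s (β - Gα) exp(G(α)A) y = exp(G(α)B) exp(-βB) w⋆ exp(βA) y = exp(G(α)B) y Φ s β`; for `α = α₀ + 2πn`
use `G α = G α₀ + 2πmn` (`IsTw.per`) and the periodicity of `Φ s`.  `QS.G_CLB` for `{A, A', a}` and
`ϖ j = star (w 1) * π j * w 1` as there. -/
def G_CMG : Prop := ∀ (k : ℕ) (m : ℤ) (G : ℝ → ℝ) (hN hS Ψ : ℝ → En k), IsTw m G →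
  (∃ α₀, deriv G α₀ ≠ 0) → LoopsL k G hN hS Ψ → CoreConclL k G hN hS Ψ

/-- **L-CRG** (the core theorem; uses `G_CMG`, `QS.G_C0`).
Proof.  If `deriv G = 0` everywhere then `G = 0` (`G 0 = 0`), `m = 0` (`IsTw.per`), `LoopsL` gives
`QS.Loops k 0 hN hS Ψ` and `QS.CoreConcl k 0 hN hS Ψ` gives the claim.  Otherwise `G_CMG`. -/
def G_CRG : Prop := ∀ (k : ℕ) (m : ℤ) (G : ℝ → ℝ) (hN hS Ψ : ℝ → En k), IsTw m G →
  LoopsL k G hN hS Ψ → CoreConclL k G hN hS Ψ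

/-! ### Holonomy -/

/-- the data on the box (cf. `QS.Dat`) -/
structure DatL (G : ℝ → ℝ) {n : ℕ} (ε b c : R4 → En n) : Prop where
  smε : ContDiff ℝ 1 ε
  smb : ContDiff ℝ 1 b
  smc : ContDiff ℝ 1 c
  idem : ∀ x, ε x * ε x = ε x
  symm : ∀ x, star (ε x) = ε x
  skb : ∀ x, star (b x) = -b x
  skc : ∀ x, star (c x) = -c x
  dr : ∀ x, fderiv ℝ ε x (1, 0, 0, 0) = b x * ε x - ε x * b x
  dt : ∀ x, fderiv ℝ ε x (0, 1, 0, 0) = c x * ε x - ε x * c x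
  flat : ∀ x, (fderiv ℝ c x (1, 0, 0, 0) - fderiv ℝ b x (0, 1, 0, 0) -
    (b x * c x - c x * b x)) * ε x = 0
  perα : ∀ r θ α β, ε (r, θ, α + 2 * Real.pi, β) = ε (r, θ, α, β) ∧
    b (r, θ, α + 2 * Real.pi, β) = b (r, θ, α, β) ∧
    c (r, θ, α + 2 * Real.pi, β) = c (r, θ, α, β)
  perβ : ∀ r θ α β, ε (r, θ, α, β + 2 * Real.pi) = ε (r, θ, α, β) ∧
    b (r, θ, α, β + 2 * Real.pi) = b (r, θ, α, β) ∧
    c (r, θ, α, β + 2 * Real.pi) = c (r, θ, α, β)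
  r0 : ∀ θ α β, ε (0, θ, α, β) = ε (0, θ, 0, β) ∧ c (0, θ, α, β) = c (0, θ, 0, β)
  r1 : ∀ θ α β, ε (Real.pi / 2, θ, α, β) = ε (Real.pi / 2, θ, 0, β - G α) ∧
    c (Real.pi / 2, θ, α, β) = c (Real.pi / 2, θ, 0, β - G α)
  t0 : ∀ r α β, ε (r, 0, α, β) = ε (r, 0, α, 0) ∧ b (r, 0, α, β) = b (r, 0, α, 0)
  t1 : ∀ r α β, ε (r, Real.pi, α, β) = ε (r, Real.pi, α, 0) ∧
    b (r, Real.pi, α, β) = b (r, Real.pi, α, 0)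

/-- the output of the ODE part (cf. `QS.Hol`) -/
structure HolL (G : ℝ → ℝ) {n : ℕ} (ε R T : R4 → En n) : Prop where
  cε : Continuous ε
  cR : Continuous R
  cT : Continuous T
  idem : ∀ x, ε x * ε x = ε x
  symm : ∀ x, star (ε x) = ε x
  uR : ∀ x, R x ∈ unitary (En n)
  uT : ∀ x, T x ∈ unitary (En n)
  R0 : ∀ θ α β, R (0, θ, α, β) = 1
  T0 : ∀ r α β, T (r, 0, α, β) = 1
  iR : ∀ r θ α β, ε (r, θ, α, β) * R (r, θ, α, β) = R (r, θ, α, β) * ε (0, θ, α, β)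
  iT : ∀ r θ α β, ε (r, θ, α, β) * T (r, θ, α, β) = T (r, θ, α, β) * ε (r, 0, α, β)
  perα : ∀ r θ α β, ε (r, θ, α + 2 * Real.pi, β) = ε (r, θ, α, β) ∧
    R (r, θ, α + 2 * Real.pi, β) = R (r, θ, α, β) ∧
    T (r, θ, α + 2 * Real.pi, β) = T (r, θ, α, β)
  perβ : ∀ r θ α β, ε (r, θ, α, β + 2 * Real.pi) = ε (r, θ, α, β) ∧
    R (r, θ, α, β + 2 * Real.pi) = R (r, θ, α, β) ∧
    T (r, θ, α, β + 2 * Real.pi) = T (r, θ, α, β)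
  r0 : ∀ θ α β, ε (0, θ, α, β) = ε (0, θ, 0, β) ∧ T (0, θ, α, β) = T (0, θ, 0, β)
  r1 : ∀ θ α β, ε (Real.pi / 2, θ, α, β) = ε (Real.pi / 2, θ, 0, β - G α) ∧
    T (Real.pi / 2, θ, α, β) = T (Real.pi / 2, θ, 0, β - G α)
  t0 : ∀ r α β, ε (r, 0, α, β) = ε (r, 0, α, 0) ∧ R (r, 0, α, β) = R (r, 0, α, 0)
  t1 : ∀ r α β, ε (r, Real.pi, α, β) = ε (r, Real.pi, α, 0) ∧
    R (r, Real.pi, α, β) = R (r, Real.pi, α, 0)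
  smN : ContDiff ℝ 1 (fun α : ℝ => R (Real.pi / 2, 0, α, 0))
  smS : ContDiff ℝ 1 (fun α : ℝ => R (Real.pi / 2, Real.pi, α, 0))
  smΨ : ContDiff ℝ 1 (fun β : ℝ => T (0, Real.pi, 0, β))
  comm : ∀ r θ α β, T (r, θ, α, β) * R (r, 0, α, β) * ε (0, 0, 0, 0) =
    R (r, θ, α, β) * T (0, θ, α, β) * ε (0, 0, 0, 0)

/-- **L-HOG** (port of `Pool/Agent/Helper50/QS/COM.lean` and `Pool/Agent/Helper64/QT/HOL2.lean` (or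
`Pool/Agent/Helper23/QS/HOL.lean`); uses `QS.G_OD1` - `QS.G_OD4`, `QT.G_OD5`).  Proof as for `QS.G_HOL`
and `QT.G_HOL2`; `r1`: uniqueness of solutions, as there.  `smN, smS, smΨ`: `QT.G_OD5` for the
coefficients `(l,t) ↦ b (t,0,l,0)`, `b (t,π,l,0)`, `c (0,t,0,l)`. -/
def G_HOG : Prop := ∀ (G : ℝ → ℝ) (n : ℕ) (ε b c : R4 → En n), DatL G ε b c →
  ∃ R T : R4 → En n, HolL G ε R T

/-- **L-LPG** (port of `Pool/Agent/Helper78/QS/LP.lean` with `m α` replaced by `G α`; `G 0 = 0`).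
Proof as for `QS.G_LP`. -/
def G_LPG : Prop := ∀ (G : ℝ → ℝ) (n k : ℕ) (ε R T : R4 → En n) (J : V k →L[ℝ] V n), G 0 = 0 →
  HolL G ε R T → IsIso (ε (0, 0, 0, 0)) J →
  LoopsL k G (lN J R) (lS J R T) (lΨ J T) ∧
  (∀ α, (star (R (Real.pi / 2, 0, 0, 0)) * R (Real.pi / 2, 0, α, 0)).comp J =
    J.comp (lN J R α)) ∧
  (∀ β, (T (0, Real.pi, 0, β)).comp J = ((T (0, Real.pi, 0, 0)).comp J).comp (lΨ J T β))

/-- compatibility with the twisted identifications (cf. `QS.Compat`) -/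
structure CompatL (G : ℝ → ℝ) {Y : Type} (f : R4 → Y) : Prop where
  perα : ∀ r θ α β, (r, θ, α, β) ∈ Box → f (r, θ, α + 2 * Real.pi, β) = f (r, θ, α, β)
  perβ : ∀ r θ α β, (r, θ, α, β) ∈ Box → f (r, θ, α, β + 2 * Real.pi) = f (r, θ, α, β)
  r0 : ∀ θ α β, 0 ≤ θ → θ ≤ Real.pi → f (0, θ, α, β) = f (0, θ, 0, β)
  r1 : ∀ θ α β, 0 ≤ θ → θ ≤ Real.pi →
    f (Real.pi / 2, θ, α, β) = f (Real.pi / 2, θ, 0, β - G α)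
  t0 : ∀ r α β, 0 ≤ r → r ≤ Real.pi / 2 → f (r, 0, α, β) = f (r, 0, α, 0)
  t1 : ∀ r α β, 0 ≤ r → r ≤ Real.pi / 2 → f (r, Real.pi, α, β) = f (r, Real.pi, α, 0)

/-- a splitting of `ε` over the box compatible with the twisted identifications -/
def BoxSplitL (G : ℝ → ℝ) {n : ℕ} (ε : R4 → En n) : Prop :=
  ∃ (N : ℕ) (f : Fin N → R4 → En n),
    (∀ j, ContinuousOn (f j) Box ∧ CompatL G (f j)) ∧
    (∀ j, ∀ x ∈ Box, f j x * f j x = f j x ∧ star (f j x) = f j x ∧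
      (tr (f j x) = 2 ∨ (tr (f j x) = 1 ∧ j.val = 0))) ∧
    (∀ i j, i ≠ j → ∀ x ∈ Box, f i x * f j x = 0) ∧
    ∀ x ∈ Box, ∑ j, f j x = ε x

/-- **L-EJG** (port of `Pool/Agent/Helper78/QS/EJ.lean` with `m α` replaced by `G α`; uses `G_LPG`).
Proof as for `QS.G_EJ`. -/
def G_EJG : Prop := ∀ (G : ℝ → ℝ) (n k : ℕ) (ε R T : R4 → En n) (J : V k →L[ℝ] V n), G 0 = 0 →
  HolL G ε R T → IsIso (ε (0, 0, 0, 0)) J →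
  CoreConclL k G (lN J R) (lS J R T) (lΨ J T) → BoxSplitL G ε

/-! ### The twisted polar coordinates -/

/-- the functions `Λ` -/
structure IsShift (Λ : ℝ × ℝ → ℝ) : Prop where
  sm : ContDiff ℝ 3 Λ
  per : ∀ r α, Λ (r, α + 2 * Real.pi) = Λ (r, α)
  zero : ∀ α, Λ (0, α) = 0

/-- the shift of `R4` -/
def shL (Λ : ℝ × ℝ → ℝ) (x : R4) : R4 := (x.1, x.2.1, x.2.2.1, x.2.2.2 + Λ (x.1, x.2.2.1))

/-- the twisted polar coordinates -/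
noncomputable def polL (Λ : ℝ × ℝ → ℝ) (x : R4) : W := QS.pol (shL Λ x)

/-- the twisting function of `Λ` -/
noncomputable def twL (m : ℤ) (Λ : ℝ × ℝ → ℝ) (α : ℝ) : ℝ :=
  m * α - Λ (Real.pi / 2, α) + Λ (Real.pi / 2, 0)

/-- **L-POL** (the twisted polar coordinates; uses `QS.G_PL`).
Proof.  `polL Λ = QS.pol ∘ shL Λ`, both `C³`; `D(shL Λ) x c = (c₁, c₂, c₃, c₄ + Λ_r c₁ + Λ_α c₃)`, a
bijection; so `mem, tan, trans` follow from `QS.G_PL` (`shL Λ x ∈ QS.Reg ↔ x ∈ QS.Reg`; the elements of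
`(Mm m).O P` are the `τ • QS.orb m P`).  `QS.Reg` is open and dense.  `twL` is clear. -/
def G_POL : Prop := ∀ (m : ℤ) (Λ : ℝ × ℝ → ℝ), IsShift Λ →
  IsPolar (Mm m) (polL Λ) QS.Reg ∧ IsTw m (twL m Λ) ∧
  ∀ x c : R4, fderiv ℝ (polL Λ) x c = fderiv ℝ QS.pol (shL Λ x)
    (c.1, c.2.1, c.2.2.1, c.2.2.2 + fderiv ℝ Λ (x.1, x.2.2.1) (c.1, c.2.2.1))

/-- **L-DTL** (the data of the ODE part; uses `G_POL`, `QS.G_PL`; cf. `Pool/Agent/Helper14/QS/DAT.lean`).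
Proof.  As for `QS.G_DAT`: `smε, ..., flat` in the same way (for `flat`: on `QS.Reg` by hypothesis,
everywhere by density and continuity).  `perα, perβ`: `Λ` is periodic in `α` (so are its derivatives).
`r0`: `Λ (0,α) = 0`, and `D(polL Λ) ∂θ = Dpol (shL Λ x) ∂θ`.  `t0, t1`: at `θ = 0, π` `pol` and
`Dpol (c₁, 0, c₃, c₄)` do not depend on the last coordinate and on `c₄` (`D(polL Λ) ∂r =
Dpol (shL Λ x) (1, 0, 0, Λ_r)`).  `r1`: `pol (π/2,θ,α,β') = act m e^{iα} (pol (π/2,θ,0,β' - mα))` and the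
same for `Dpol ∂θ`, for `β' = β + Λ(π/2,α)`: `β' - mα = (β - twL m Λ α) + Λ(π/2,0)`. -/
def G_DTL : Prop := ∀ (m : ℤ) (Λ : ℝ × ℝ → ℝ), IsShift Λ → ∀ (k n : ℕ) (e : W → En n)
  (B : W → W →L[ℝ] En n), IsBundle (Mm m) k e B →
  (∀ x ∈ QS.Reg, FG B (polL Λ) x * e (polL Λ x) = 0) →
  DatL (twL m Λ) (fun x => e (polL Λ x)) (bG B (polL Λ)) (cG B (polL Λ))

/-- **L-SPLL** (the splitting in the untwisted coordinates; cf. `Pool/Agent/Helper14/QT/SPL.lean`).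
Proof.  `f_j (r,θ,α,β) = f'_j (r, θ, α, β - Λ(r,α))`; `e (polL Λ (r,θ,α,β-Λ)) = e (pol (r,θ,α,β))`.
`Compat m`: at `r = π/2` `f'_j (π/2, θ, α, β - Λ(π/2,α)) = f'_j (π/2, θ, 0, β - Λ(π/2,α) - twL m Λ α)`
and `f_j (π/2, θ, 0, β - mα) = f'_j (π/2, θ, 0, β - mα - Λ(π/2,0))`, the same. -/
def G_SPLL : Prop := ∀ (m : ℤ) (Λ : ℝ × ℝ → ℝ), IsShift Λ → ∀ (n : ℕ) (e : W → En n),
  BoxSplitL (twL m Λ) (fun x => e (polL Λ x)) → BoxSplit m (fun x => e (QS.pol x))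

/-! ### The metrics -/

/-- the vertical part of a vector at `P` for the connection form `μ` (times `m`) -/
noncomputable def kapL (μ : ℂ × ℂ → (ℂ × ℂ) →L[ℝ] ℝ) (P u : W) : ℂ × ℝ :=
  (u.2.1 - Complex.I * μ P.1 u.1 * P.2.1, u.2.2)

/-- the meridian vector at `P` -/
def mer (P : W) : ℂ × ℝ := (-(P.2.2 * P.2.1), 1 - P.2.2 ^ 2)

/-- `gM = φ(t)² H + K` with the data `φ, H, K, μ`: `H` a metric of the base `S²`, `K P` a metric of the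
fibre at `P`, evaluated on the vertical parts for the connection `μ`, with meridians orthogonal to
parallels and a speed of the meridians which depends on the height `t` only -/
structure IsKKD (gM : W → W →L[ℝ] W →L[ℝ] ℝ) (φ : ℝ → ℝ)
    (H : ℂ × ℂ → (ℂ × ℂ) →L[ℝ] (ℂ × ℂ) →L[ℝ] ℝ) (K : W → (ℂ × ℝ) →L[ℝ] (ℂ × ℝ) →L[ℝ] ℝ)
    (μ : ℂ × ℂ → (ℂ × ℂ) →L[ℝ] ℝ) : Prop where
  smφ : ContDiff ℝ 3 φ
  posφ : ∀ t, 0 < φ t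
  smH : ContDiff ℝ 3 H
  smK : ContDiff ℝ 3 K
  smμ : ContDiff ℝ 3 μ
  eq : ∀ P ∈ X, ∀ u ∈ TX P, ∀ u' ∈ TX P,
    gM P u u' = φ P.2.2 ^ 2 * H P.1 u.1 u'.1 + K P (kapL μ P u) (kapL μ P u')
  polar : ∀ P ∈ X, K P (mer P) (Complex.I * P.2.1, 0) = 0
  speed : ∀ P ∈ X, ∀ P' ∈ X, P.2.2 = P'.2.2 → K P (mer P) (mer P) = K P' (mer P') (mer P')

/-- metrics of Kaluza-Klein type -/
def IsKK (gM : W → W →L[ℝ] W →L[ℝ] ℝ) : Prop := ∃ φ H K μ, IsKKD gM φ H K μ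

/-- product metrics on `S² × S²` (`m = 0`) -/
def IsProdM (gM : W → W →L[ℝ] W →L[ℝ] ℝ) : Prop :=
  ∃ (H : ℂ × ℂ → (ℂ × ℂ) →L[ℝ] (ℂ × ℂ) →L[ℝ] ℝ) (K : ℂ × ℝ → (ℂ × ℝ) →L[ℝ] (ℂ × ℝ) →L[ℝ] ℝ),
    ContDiff ℝ 3 H ∧ ContDiff ℝ 3 K ∧
    ∀ P ∈ X, ∀ u ∈ TX P, ∀ u' ∈ TX P, gM P u u' = H P.1 u.1 u'.1 + K P.2 u.2 u'.2

/-- the planes `∂r, ∂θ` of some twisted polar coordinates are flat -/
def FlatL (gM : W → W →L[ℝ] W →L[ℝ] ℝ) : Prop := ∃ Λ, IsShift Λ ∧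
  ∀ x ∈ QS.Reg, IsCurv (gB gM (polL Λ)) x (1, 0, 0, 0) (0, 1, 0, 0) 0

/-- the radial component of `μ` is the radial derivative of `Λ` -/
def IsRad (μ : ℂ × ℂ → (ℂ × ℂ) →L[ℝ] ℝ) (Λ : ℝ × ℝ → ℝ) : Prop :=
  ∀ r α : ℝ, fderiv ℝ Λ (r, α) (1, 0) =
    μ ((Real.cos r : ℂ), Complex.exp (α * Complex.I) * Real.sin r)
      (-(Real.sin r : ℂ), Complex.exp (α * Complex.I) * Real.cos r)

/-- **L-LAM** (the function `Λ` of a connection).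
Proof.  `f (r,α) = μ (σ(r,α)) (∂_r σ(r,α))`, `σ(r,α) = (cos r, e^{iα} sin r)`, is `C³` and periodic in
`α`; `Λ(r,α) = ∫_0^r f(ρ,α) dρ = r ∫_0^1 f(tr,α) dt`.  `C³`: parameter integrals over `[0,1]` of `C^n`
functions are `C^n` (induction on `n` with
`intervalIntegral.hasFDerivAt_integral_of_dominated_of_fderiv_le`; cf.
`Pool/Agent/Helper97/QT/DIV.lean` for `n = 1`). -/
def G_LAM : Prop := ∀ (μ : ℂ × ℂ → (ℂ × ℂ) →L[ℝ] ℝ), ContDiff ℝ 3 μ →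
  ∃ Λ : ℝ × ℝ → ℝ, IsShift Λ ∧ IsRad μ Λ

/-- `A(θ) = K(∂θ,∂θ)` -/
noncomputable def AL (K : W → (ℂ × ℝ) →L[ℝ] (ℂ × ℝ) →L[ℝ] ℝ) (θ : ℝ) : ℝ :=
  K (((1 : ℂ), (0 : ℂ)), ((Real.sin θ : ℂ), Real.cos θ)) ((Real.cos θ : ℂ), -Real.sin θ)
    ((Real.cos θ : ℂ), -Real.sin θ)

/-- **L-SRL** (curvature; port of `Pool/Agent/Helper13/QS/SR1.lean`; uses `G_POL`, `QS.G_PL`,
`QT.G_GBX`).

Proof.  `x ∈ Reg`, `P = polL Λ x = (σ, q)`, `σ = (cos r, e^{iα} sin r)`, `q = (e^{iβ'} sin θ, cos θ)`,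
`β' = β + Λ(r,α)`; `∂θ q = (e^{iβ'} cos θ, -sin θ)`, `∂β q = (i e^{iβ'} sin θ, 0)`.  By `G_POL`
`D(polL Λ) x u = ((Dσ)(u₁,u₃), u₂ ∂θ q + (u₄ + Λ_r u₁ + Λ_α u₃) ∂β q)`, so
`kapL μ P (D u) = u₂ ∂θ q + (u₄ + Λ_r u₁ + Λ_α u₃ - μ(σ)(Dσ(u₁,u₃))) ∂β q`, and by `IsRad` the
coefficient of `u₁` in the bracket vanishes.  `mer P = -sin θ ∂θ q`, so (`sin θ ≠ 0`) `polar` gives
`K P (∂θ q) (∂β q) = 0`, and `speed` (with `P' = ((1,0),(sin θ, cos θ))`) gives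
`K P (∂θ q) (∂θ q) = AL K θ`.  So near `x`, for all `u`: `h x ∂θ u = AL K θ u₂` and
`h x ∂r u = f(θ)² H(σ)(∂r σ)(Dσ(u₁,u₃))` with `f = QS.fφ φ` (`h = gB gM (polL Λ)`; it is symmetric).
The rest is the computation of `QS.G_SR1` word for word.  `0 < AL K θ`: `IsBase.pos` for the vector
`(0, ∂θ q)` at `((1,0),(sin θ, cos θ))`, whose `kapL` is `∂θ q` (it is in `O` only if `τ i = 0`, `τ = 0`).
-/
def G_SRL : Prop := ∀ (m : ℤ) (gM : W → W →L[ℝ] W →L[ℝ] ℝ) (φ : ℝ → ℝ)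
  (H : ℂ × ℂ → (ℂ × ℂ) →L[ℝ] (ℂ × ℂ) →L[ℝ] ℝ) (K : W → (ℂ × ℝ) →L[ℝ] (ℂ × ℝ) →L[ℝ] ℝ)
  (μ : ℂ × ℂ → (ℂ × ℂ) →L[ℝ] ℝ) (Λ : ℝ × ℝ → ℝ),
  IsBase (Mm m) gM → IsKKD gM φ H K μ → IsShift Λ → IsRad μ Λ →
  (∀ θ, 0 < AL K θ) ∧
  ∀ x ∈ QS.Reg, ∃ Hrr : ℝ, 0 < Hrr ∧ IsCurv (gB gM (polL Λ)) x (1, 0, 0, 0) (0, 1, 0, 0)
    (Hrr * QS.fφ φ x.2.1 * (deriv (AL K) x.2.1 / (2 * AL K x.2.1) * deriv (QS.fφ φ) x.2.1 -
      deriv (deriv (QS.fφ φ)) x.2.1))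

/-- **L-STL** (port of `Pool/Agent/Helper25/QS/STD.lean`; uses `G_LAM`, `G_SRL`, `QS.G_SR2`).
Proof.  `Λ` from `G_LAM`.  For `θ ∈ (0,π)` the point `(π/4, θ, 0, 0)` is in `Reg`; `κ ≥ 0`, `Hrr > 0`,
`f > 0` give `f'' ≤ (A'/(2A)) f'`; `f'` vanishes at `0, π`; `QS.G_SR2`: `f' = 0` on `[0,π]`, hence
everywhere, and the curvature number is `0` on `Reg` (as in `QS.G_STD`). -/
def G_STL : Prop := ∀ (m : ℤ) (gM : W → W →L[ℝ] W →L[ℝ] ℝ), IsBase (Mm m) gM → IsKK gM →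
  ∃ Λ, IsShift Λ ∧
    ((∀ x ∈ QS.Reg, ∀ K, IsCurv (gB gM (polL Λ)) x (1, 0, 0, 0) (0, 1, 0, 0) K → 0 ≤ K) →
      ∀ x ∈ QS.Reg, IsCurv (gB gM (polL Λ)) x (1, 0, 0, 0) (0, 1, 0, 0) 0)

/-- **L-PRD** (products; uses `QS.G_SP`).
Proof.  `Λ = 0`, `polL 0 = QS.pol`; `QS.G_SP` (`QS.IsBase 0 gM` follows from `IsBase (Mm 0) gM` as in
`Pool/Agent/Helper61/QG/FinalS.lean`, `gB` of `QG` and of `QS` are equal by `rfl`). -/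
def G_PRD : Prop := ∀ (gM : W → W →L[ℝ] W →L[ℝ] ℝ), IsBase (Mm 0) gM → IsProdM gM → FlatL gM

end Pool.Agent.Helper61.QL
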