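import Pool.Agent.Helper61.QL.Goals
import Pool.Agent.Helper61.QM.StmtL

/-!
# Project QL (MP_0ebdb3_gt): conversion of the classes of metrics from the matrix level
-/

set_option autoImplicit false

open Set ComplexConjugate

namespace Pool.Agent.Helper61.QL

open Pool.Agent.Helper61

/-- **V-CVL** (the classes of metrics; port of `Pool/Agent/Helper35/QG/CVST.lean`; the last part uses
`QG.G_CVI`).
Proof.  Operator versions `H', K', μ'` of `H, K, μ` as in `QG.G_CVX` (bilinear/linear maps of finite
dimensional spaces all of whose evaluations are `C³`), then field by field (`QM.kapL`, `QM.mer` unfold to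
`kapL`, `mer`, and `(Mm 0).X`, `(Mm 0).T` to `QS.X`, `QS.TX`).  Last part: `QG.G_CVI` with `L = id`:
`QM.gB gM p x a a' = QG.gB g' p x a a'` by the hypothesis, with `p = polL Λ` (`QM.pol = QS.pol` by
`rfl`). -/
def G_CVL : Prop := ∀ (gM : QM.W → QM.W → QM.W → ℝ)
  (g' : QS.W → QS.W →L[ℝ] QS.W →L[ℝ] ℝ), (∀ P u u', g' P u u' = gM P u u') →
  (QM.IsProd gM → IsProdM g') ∧ (QM.KK gM → IsKK g') ∧ (QM.FlatTw gM → FlatL g')

end Pool.Agent.Helper61.QL
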