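import Pool.Agent.Helper61.QL.GoalsV
import Pool.Agent.Helper61.QS.GoalsH

/-!
# Project QL (MP_0ebdb3_gt): assembly
-/

set_option autoImplicit false

open Set ComplexConjugate

namespace Pool.Agent.Helper61.QL

open Pool.Agent Pool.Agent.Helper61 Pool.Agent.Helper61.QG Pool.Agent.Helper61.QT
open Pool.Agent.Helper61.QS (V En tr rk W X TX act R4 UC IsIso compr IsTrans Box Compat BoxSplit
  lN lS lΨ IsCurv Gam dd)
open Pool.Agent.Helper61.QM (Model Mm)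

/-- the theorem at the operator level -/
def G_OPL : Prop := ∀ (n k : ℕ) (m : ℤ) (e : W → En n) (B : W → W →L[ℝ] En n)
  (gM : W → W →L[ℝ] W →L[ℝ] ℝ) (γ : W × V n → V n →L[ℝ] V n →L[ℝ] ℝ) (ρ : ℝ),
  IsBundle (Mm m) k e B → IsBase (Mm m) gM → IsFibre (Mm m) ρ e γ → 0 < ρ →
  ((m = 0 ∧ IsProdM gM) ∨ IsKK gM ∨ FlatL gM) →
  TubeSec (Mm m) k ρ e B gM γ → Splits (Mm m) e

theorem opMainL (hGKC : G_GKC) (hPOL : G_POL) (hSTL : G_STL) (hPRD : G_PRD) (hDTL : G_DTL)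
    (hHOG : G_HOG) (hISO : QS.G_ISO) (hLPG : G_LPG) (hCRG : G_CRG) (hEJG : G_EJG)
    (hSPLL : G_SPLL) (hFIN : QS.G_FIN) : G_OPL := by
  intro n k m e B gM γ ρ hE hM hγ hρ hcl hsec
  -- for every twist the curvature of the `(r,θ)`-planes is nonnegative
  have hkc : ∀ Λ, IsShift Λ → ∀ x ∈ QS.Reg, ∀ K,
      IsCurv (gB gM (polL Λ)) x (1, 0, 0, 0) (0, 1, 0, 0) K →
        0 ≤ K ∧ (K = 0 → FG B (polL Λ) x * e (polL Λ x) = 0) := by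
    intro Λ hΛ x hx K hK
    exact hGKC W (Mm m) (polL Λ) QS.Reg k n e B gM γ ρ (hPOL m Λ hΛ).1 hE hM hγ hρ hsec x hx K hK
  have hflat : FlatL gM := by
    rcases hcl with ⟨rfl, hcl⟩ | hcl | hcl
    · exact hPRD gM hM hcl
    · obtain ⟨Λ, hΛ, h⟩ := hSTL m gM hM hcl
      exact ⟨Λ, hΛ, h fun x hx K hK => (hkc Λ hΛ x hx K hK).1⟩
    · exact hcl
  obtain ⟨Λ, hΛ, hfl⟩ := hflat
  obtain ⟨hpol, htw, -⟩ := hPOL m Λ hΛ
  have hF : ∀ x ∈ QS.Reg, FG B (polL Λ) x * e (polL Λ x) = 0 := by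
    intro x hx
    exact (hkc Λ hΛ x hx 0 (hfl x hx)).2 rfl
  have hdat := hDTL m Λ hΛ k n e B hE hF
  obtain ⟨R, T, hol⟩ := hHOG (twL m Λ) n _ _ _ hdat
  have hx0 : polL Λ (0, 0, 0, 0) ∈ (Mm m).X := hpol.mem _
  obtain ⟨-, J, hJ1, hJ2⟩ := hISO n (e (polL Λ (0, 0, 0, 0))) (hE.idem _ hx0) (hE.symm _ hx0)
  have hJ : IsIso ((fun x => e (polL Λ x)) (0, 0, 0, 0)) J := ⟨hJ1, hJ2⟩
  have hloops := (hLPG (twL m Λ) n _ _ R T J htw.zero hol hJ).1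
  have hsplit := hEJG (twL m Λ) n _ _ R T J htw.zero hol hJ (hCRG _ m _ _ _ _ htw hloops)
  obtain ⟨N, f, f1, f2, f3, f4, f5⟩ := hFIN m n e
    (fun ζ hζ P hP => hE.inv _ ⟨ζ, hζ, rfl⟩ P hP) (hSPLL m Λ hΛ n e hsplit)
  refine ⟨N, f, f1, ?_, f3, f4, f5⟩
  rintro j g ⟨ζ, hζ, rfl⟩ P hP
  exact f2 j ζ hζ P hP

theorem mainL (hop : G_OPL) (hCVL : G_CVL) (hCVX : G_CVX) (hCVB : G_CVB) (hCVT : G_CVT)
    (hCVS : G_CVS) : QM.G_ML := by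
  intro n k m e B gM γ ρ hE hM hγ hρ hcl hsec
  obtain ⟨e', B', g', γ', hrel⟩ := hCVX QM.W n e B gM γ hE.smooth_e hE.smooth_B hE.linear_B
    hM.smooth hM.linear hγ.smooth hγ.linear
  obtain ⟨h1, h2, h3⟩ := hCVB QM.W (QM.Mm m) n k ρ e B gM γ e' B' g' γ' hrel hρ
  have hsec' := hCVT QM.W (QM.Mm m) n k ρ e B gM γ e' B' g' γ' hrel hρ hsec
  obtain ⟨c1, c2, c3⟩ := hCVL gM g' hrel.hg
  have hcl' : (m = 0 ∧ IsProdM g') ∨ IsKK g' ∨ FlatL g' := by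
    rcases hcl with ⟨hm, hcl⟩ | hcl | hcl
    · exact Or.inl ⟨hm, c1 hcl⟩
    · exact Or.inr (Or.inl (c2 hcl))
    · exact Or.inr (Or.inr (c3 hcl))
  exact hCVS QM.W (QM.Mm m) n e e' hrel.he (hop n k m e' B' g' γ' ρ (h1 hE) (h2 hM) (h3 hγ) hρ
    hcl' hsec')

end Pool.Agent.Helper61.QL
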